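import Pool.Agent.N627.ND.Stm

/-!
# Project ND, part E: some vertex of `S` is separated from the others by few vertices
-/

set_option autoImplicit false

namespace Pool.Agent.N11.ND

open Pool.Agent.N627.ND

variable {V : Type}

/-- there is a walk of length at most `k` all of whose vertices are `v` or outside `Z` -/
def Out (G : SimpleGraph V) (Z : Set V) (k : ℕ) (v w : V) : Prop :=
  ∃ q : G.Walk v w, q.length ≤ k ∧ ∀ z ∈ q.support, z = v ∨ z ∉ Z

theorem exists_first (G : SimpleGraph V) (Z : Set V) (v : V) :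
    ∀ (w s : V) (p : G.Walk w s) (k : ℕ), s ∈ Z → s ≠ v → Out G Z k v w →
    ∃ x ∈ p.support, x ∈ Z ∧ x ≠ v ∧ ∃ w', G.Adj w' x ∧
      ∃ k', k' + 1 ≤ k + p.length ∧ Out G Z k' v w' := by
  intro w s p
  induction p with
  | nil =>
    intro k hs hsv ⟨q, hq, hz⟩
    rcases hz _ q.end_mem_support with h | h
    · exact absurd h hsv
    · exact absurd hs h
  | @cons a b c h p ih =>
    intro k hs hsv ⟨q, hq, hz⟩
    by_cases hb : b ∈ Z ∧ b ≠ v
    · refine ⟨b, ?_, hb.1, hb.2, a, h, k, ?_, q, hq, hz⟩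
      · simp
      · simp
    · obtain ⟨x, hx, h1, h2, w', h3, k', h4, h5⟩ := ih (k + 1) hs hsv
        ⟨q.concat h, by simp; omega, by
          intro z hz'
          rw [SimpleGraph.Walk.support_concat] at hz'
          simp at hz'
          rcases hz' with h' | h'
          · exact hz z h'
          · subst h'
            by_cases hbv : z = v
            · exact Or.inl hbv
            · exact Or.inr fun hh => hb ⟨hh, hbv⟩⟩
      refine ⟨x, ?_, h1, h2, w', h3, k', ?_, h5⟩
      · simp [hx]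
      · simp; omega

/-- links with end points in `S` -/
def IsLk (G : SimpleGraph V) (S : Finset V) (m : ℕ) (e : Sym2 V) (Q : Finset V) : Prop :=
  Disjoint Q S ∧ Q.card ≤ m ∧ ∀ u v, e = s(u, v) → u ∈ S ∧ v ∈ S ∧ u ≠ v ∧
    ∃ p : G.Walk u v, p.length ≤ m ∧ ∀ z ∈ p.support, z = u ∨ z = v ∨ z ∈ Q

def Fam (G : SimpleGraph V) (S : Finset V) (m : ℕ) (F : Finset (Sym2 V))
    (Q : Sym2 V → Finset V) : Prop :=
  (∀ e ∈ F, IsLk G S m e (Q e)) ∧ ∀ e ∈ F, ∀ f ∈ F, e ≠ f → Disjoint (Q e) (Q f)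

theorem exists_fam [Fintype V] (G : SimpleGraph V) (S : Finset V) (m : ℕ) :
    ∃ (F : Finset (Sym2 V)) (Q : Sym2 V → Finset V), Fam G S m F Q ∧
      ∀ u v, u ∈ S → v ∈ S → u ≠ v →
      (∃ p : G.Walk u v, p.length ≤ m ∧ ∀ z ∈ p.support, z = u ∨ z = v ∨
        (z ∉ S ∧ ∀ e ∈ F, z ∉ Q e)) → s(u, v) ∈ F := by
  classical
  obtain ⟨F, hF⟩ := (Set.toFinite {F : Finset (Sym2 V) | ∃ Q, Fam G S m F Q}).exists_maximal
    ⟨∅, fun _ => ∅, by simp [Fam]⟩
  obtain ⟨⟨Q, hQ⟩, hmax⟩ := hF
  refine ⟨F, Q, hQ, ?_⟩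
  rintro u v hu hv huv ⟨p, hp, hz⟩
  by_contra hnot
  let Q0 : Finset V := p.support.toFinset \ {u, v}
  have hQ0 : ∀ z, z ∈ Q0 ↔ z ∈ p.support ∧ z ≠ u ∧ z ≠ v := by
    intro z
    simp [Q0]
  have hnew : Fam G S m (insert s(u, v) F) (Function.update Q s(u, v) Q0) := by
    have hne : ∀ e ∈ F, e ≠ s(u, v) := fun e he h => hnot (h ▸ he)
    refine ⟨?_, ?_⟩
    · intro e he
      rcases Finset.mem_insert.1 he with rfl | he
      · rw [Function.update_self]
        refine ⟨?_, ?_, ?_⟩
        · rw [Finset.disjoint_left]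
          intro z hz1 hz2
          rw [hQ0] at hz1
          rcases hz z hz1.1 with h | h | h
          · exact hz1.2.1 h
          · exact hz1.2.2 h
          · exact h.1 hz2
        · have h1 : Q0 ⊆ p.support.tail.toFinset := by
            intro z hz1
            rw [hQ0] at hz1
            rw [List.mem_toFinset]
            have := hz1.1
            rw [← SimpleGraph.Walk.cons_tail_support] at this
            rcases List.mem_cons.1 this with h | h
            · exact absurd h hz1.2.1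
            · exact h
          calc Q0.card ≤ p.support.tail.toFinset.card := Finset.card_le_card h1
            _ ≤ p.support.tail.length := List.toFinset_card_le _
            _ = p.length := by simp
            _ ≤ m := hp
        · intro a b hab
          rw [Sym2.eq_iff] at hab
          rcases hab with ⟨rfl, rfl⟩ | ⟨rfl, rfl⟩
          · refine ⟨hu, hv, huv, p, hp, ?_⟩
            intro z hz1
            by_cases h1 : z = u
            · exact Or.inl h1
            by_cases h2 : z = v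
            · exact Or.inr (Or.inl h2)
            exact Or.inr (Or.inr ((hQ0 z).2 ⟨hz1, h1, h2⟩))
          · refine ⟨hv, hu, huv.symm, p.reverse, by simpa using hp, ?_⟩
            intro z hz1
            rw [SimpleGraph.Walk.support_reverse, List.mem_reverse] at hz1
            by_cases h1 : z = u
            · exact Or.inr (Or.inl h1)
            by_cases h2 : z = v
            · exact Or.inl h2
            exact Or.inr (Or.inr ((hQ0 z).2 ⟨hz1, h1, h2⟩))
      · rw [Function.update_of_ne (hne e he)]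
        exact hQ.1 e he
    · have hd : ∀ e ∈ F, Disjoint (Q e) Q0 := by
        intro e he
        rw [Finset.disjoint_left]
        intro z hz1 hz2
        rw [hQ0] at hz2
        rcases hz z hz2.1 with h | h | h
        · exact hz2.2.1 h
        · exact hz2.2.2 h
        · exact h.2 e he hz1
      intro e he f hf hef
      rcases Finset.mem_insert.1 he with rfl | he <;> rcases Finset.mem_insert.1 hf with rfl | hf
      · exact absurd rfl hef
      · rw [Function.update_self, Function.update_of_ne (hne f hf)]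
        exact (hd f hf).symm
      · rw [Function.update_self, Function.update_of_ne (hne e he)]
        exact hd e he
      · rw [Function.update_of_ne (hne e he), Function.update_of_ne (hne f hf)]
        exact hQ.2 e he f hf hef
  have := hmax ⟨_, hnew⟩ (Finset.subset_insert _ _)
  exact hnot (this (Finset.mem_insert_self _ _))


/-- a large independent set of vertices of small degree -/
theorem exists_indep {X : Type} [Fintype X] (H : SimpleGraph X) (D : ℝ) (hD : 1 ≤ D)
    (hE : (H.edgeSet.ncard : ℝ) ≤ D * Fintype.card X) :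
    ∃ I : Finset X, (∀ x ∈ I, ∀ y ∈ I, ¬ H.Adj x y) ∧
      (∀ x ∈ I, ((H.neighborSet x).ncard : ℝ) ≤ 4 * D) ∧
      (Fintype.card X : ℝ) ≤ 10 * D * I.card := by
  classical
  have hdeg : ∀ x, (H.neighborSet x).ncard = H.degree x := by
    intro x
    rw [← SimpleGraph.card_neighborFinset_eq_degree, ← Set.ncard_coe_finset]
    simp
  have hEc : H.edgeSet.ncard = H.edgeFinset.card := by
    rw [← Set.ncard_coe_finset]
    simp
  let A : Finset X := Finset.univ.filter fun x => (H.degree x : ℝ) ≤ 4 * D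
  obtain ⟨I, hI⟩ := (Set.toFinite {I : Finset X | I ⊆ A ∧ ∀ x ∈ I, ∀ y ∈ I, ¬ H.Adj x y}).exists_maximal
    ⟨∅, by simp⟩
  obtain ⟨⟨hIA, hind⟩, hmax⟩ := hI
  refine ⟨I, hind, ?_, ?_⟩
  · intro x hx
    rw [hdeg]
    exact (Finset.mem_filter.1 (hIA hx)).2
  · -- covering
    have hcov : A ⊆ I.biUnion fun x => insert x (H.neighborFinset x) := by
      intro x hx
      rw [Finset.mem_biUnion]
      by_contra hcon
      push Not at hcon
      have hxI : x ∉ I := fun h => hcon x h (Finset.mem_insert_self _ _)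
      have hadj : ∀ y ∈ I, ¬ H.Adj y x := fun y hy h => hcon y hy
        (Finset.mem_insert_of_mem (by simpa using h))
      have hnew : insert x I ∈ {I : Finset X | I ⊆ A ∧ ∀ x ∈ I, ∀ y ∈ I, ¬ H.Adj x y} := by
        refine ⟨Finset.insert_subset hx hIA, ?_⟩
        intro y hy z hz
        rcases Finset.mem_insert.1 hy with hy | hy <;> rcases Finset.mem_insert.1 hz with hz | hz
        · rw [hy, hz]
          exact H.loopless.irrefl _
        · rw [hy]
          exact fun h => hadj z hz h.symm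
        · rw [hz]
          exact hadj y hy
        · exact hind y hy z hz
      exact hxI (hmax hnew (Finset.subset_insert _ _) (Finset.mem_insert_self _ _))
    have h1 : (A.card : ℝ) ≤ 5 * D * I.card := by
      have h2 : (A.card : ℝ) ≤ ∑ x ∈ I, ((H.degree x : ℝ) + 1) := by
        calc (A.card : ℝ) ≤ ((I.biUnion fun x => insert x (H.neighborFinset x)).card : ℝ) := by
              exact_mod_cast Finset.card_le_card hcov
          _ ≤ ((∑ x ∈ I, (insert x (H.neighborFinset x)).card : ℕ) : ℝ) := by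
              exact_mod_cast Finset.card_biUnion_le
          _ ≤ ((∑ x ∈ I, (H.degree x + 1) : ℕ) : ℝ) := by
              have : ∑ x ∈ I, (insert x (H.neighborFinset x)).card ≤ ∑ x ∈ I, (H.degree x + 1) :=
                Finset.sum_le_sum fun x _ => by
                  have := Finset.card_insert_le x (H.neighborFinset x)
                  rwa [SimpleGraph.card_neighborFinset_eq_degree] at this
              exact_mod_cast this
          _ = _ := by push_cast; rfl
      have h3 : ∑ x ∈ I, ((H.degree x : ℝ) + 1) ≤ ∑ x ∈ I, (5 * D) := by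
        apply Finset.sum_le_sum
        intro x hx
        have := (Finset.mem_filter.1 (hIA hx)).2
        linarith
      rw [Finset.sum_const, nsmul_eq_mul] at h3
      linarith [mul_comm (I.card : ℝ) (5 * D)]
    have h4 : (Fintype.card X : ℝ) ≤ 2 * A.card := by
      have hs := H.sum_degrees_eq_twice_card_edges
      have hs' : ∑ x, (H.degree x : ℝ) = 2 * (H.edgeFinset.card : ℝ) := by exact_mod_cast hs
      have hsplit : ∑ x, (H.degree x : ℝ) ≥ ∑ x ∈ Finset.univ.filter (fun x => ¬ (H.degree x : ℝ) ≤ 4 * D), (4 * D) := by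
        calc ∑ x ∈ Finset.univ.filter (fun x => ¬ (H.degree x : ℝ) ≤ 4 * D), (4 * D)
            ≤ ∑ x ∈ Finset.univ.filter (fun x => ¬ (H.degree x : ℝ) ≤ 4 * D), (H.degree x : ℝ) := by
              apply Finset.sum_le_sum
              intro x hx
              exact (not_le.1 (Finset.mem_filter.1 hx).2).le
          _ ≤ _ := Finset.sum_le_sum_of_subset_of_nonneg (Finset.filter_subset _ _)
              fun _ _ _ => by positivity
      rw [Finset.sum_const, nsmul_eq_mul] at hsplit
      have hc : (A.card : ℝ) + ((Finset.univ.filter (fun x => ¬ (H.degree x : ℝ) ≤ 4 * D)).card : ℝ)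
          = Fintype.card X := by
        have := Finset.card_filter_add_card_filter_not (s := (Finset.univ : Finset X))
          (fun x => (H.degree x : ℝ) ≤ 4 * D)
        rw [Finset.card_univ] at this
        exact_mod_cast this
      rw [hEc] at hE
      nlinarith
    linarith

/-- the outside of the family -/
def ZZ (S : Finset V) (F : Finset (Sym2 V)) (Q : Sym2 V → Finset V) : Set V :=
  {z | z ∈ S ∨ ∃ e ∈ F, z ∈ Q e}

/-- the graph of the family -/
def H1 {G : SimpleGraph V} {S : Finset V} {m : ℕ} {F : Finset (Sym2 V)}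
    {Q : Sym2 V → Finset V} (hF : Fam G S m F Q) : SimpleGraph {x // x ∈ S} where
  Adj x y := s(x.1, y.1) ∈ F
  symm := ⟨fun x y h => by rwa [Sym2.eq_swap]⟩
  loopless := ⟨fun x h => ((hF.1 _ h).2.2 x.1 x.1 rfl).2.2.1 rfl⟩

theorem model1 {G : SimpleGraph V} {S : Finset V} {m : ℕ} {F : Finset (Sym2 V)}
    {Q : Sym2 V → Finset V} (hF : Fam G S m F Q) : Nonempty (Model (H1 hF) G m) := by
  refine ⟨⟨Subtype.val, fun x => {x.1}, fun e => {z | e.map Subtype.val ∈ F ∧
    z ∈ Q (e.map Subtype.val)}, ?_, ?_, ?_, ?_, ?_⟩⟩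
  · intro x
    rfl
  · intro x y hxy
    rw [Set.disjoint_singleton]
    exact fun h => hxy (Subtype.ext h)
  · intro e f hef
    rw [Set.disjoint_left]
    rintro z ⟨h1, h2⟩ ⟨h3, h4⟩
    refine Finset.disjoint_left.1 (hF.2 _ h1 _ h3 ?_) h2 h4
    intro h
    exact hef (Sym2.map.injective Subtype.val_injective h)
  · intro x e
    rw [Set.disjoint_left]
    rintro z hz ⟨h1, h2⟩
    rw [Set.mem_singleton_iff] at hz
    subst hz
    exact Finset.disjoint_left.1 (hF.1 _ h1).1 h2 x.2
  · intro x y hxy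
    obtain ⟨-, -, -, p, hp, hz⟩ := (hF.1 _ hxy).2.2 x.1 y.1 rfl
    refine ⟨p, hp, ?_⟩
    intro z hz'
    rcases hz z hz' with h | h | h
    · exact Or.inl (Or.inl h)
    · exact Or.inr h
    · exact Or.inl (Or.inr ⟨hxy, h⟩)

theorem card_F {G : SimpleGraph V} {S : Finset V} {m : ℕ} {F : Finset (Sym2 V)}
    {Q : Sym2 V → Finset V} (hF : Fam G S m F Q) : F.card ≤ (H1 hF).edgeSet.ncard := by
  classical
  have hsub : (F : Set (Sym2 V)) ⊆ (Sym2.map Subtype.val) '' (H1 hF).edgeSet := by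
    intro e he
    induction e using Sym2.ind with
    | _ u v =>
      obtain ⟨hu, hv, huv, -⟩ := (hF.1 _ he).2.2 u v rfl
      exact ⟨s(⟨u, hu⟩, ⟨v, hv⟩), he, by simp⟩
  have hfin : ((H1 hF).edgeSet).Finite := Set.toFinite _
  calc F.card = (F : Set (Sym2 V)).ncard := (Set.ncard_coe_finset _).symm
    _ ≤ ((Sym2.map Subtype.val) '' (H1 hF).edgeSet).ncard :=
      Set.ncard_le_ncard hsub (hfin.image _)
    _ ≤ _ := Set.ncard_image_le hfin

/-- seen vertices -/
def Seen (G : SimpleGraph V) (Z : Set V) (r : ℕ) (v x : V) : Prop :=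
  ∃ w, G.Adj w x ∧ Out G Z r v w

/-- the second graph -/
def H2 (G : SimpleGraph V) (Z : Set V) (r : ℕ) {S M : Finset V} (I : Finset {x // x ∈ S}) :
    SimpleGraph ({x // x ∈ I} ⊕ {z // z ∈ M}) where
  Adj a b := match a, b with
    | .inl v, .inr x => Seen G Z r v.1.1 x.1
    | .inr x, .inl v => Seen G Z r v.1.1 x.1
    | _, _ => False
  symm := ⟨by rintro (a | a) (b | b) h <;> exact h⟩
  loopless := ⟨by rintro (a | a) h <;> exact h⟩

theorem Out.mono {G : SimpleGraph V} {Z : Set V} {k l : ℕ} {v w : V} (h : Out G Z k v w)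
    (hkl : k ≤ l) : Out G Z l v w := by
  obtain ⟨q, h1, h2⟩ := h
  exact ⟨q, h1.trans hkl, h2⟩

theorem model2 {G : SimpleGraph V} {S M : Finset V} {Z : Set V} {r : ℕ}
    (I : Finset {x // x ∈ S}) (hSZ : ∀ z ∈ S, z ∈ Z) (hMZ : ∀ z ∈ M, z ∈ Z)
    (hMS : ∀ z ∈ M, z ∉ S)
    (hind : ∀ x ∈ I, ∀ y ∈ I, x ≠ y → ¬ ∃ p : G.Walk x.1 y.1, p.length ≤ 2 * (r + 1) ∧
      ∀ z ∈ p.support, z = x.1 ∨ z = y.1 ∨ z ∉ Z) :
    Nonempty (Model (H2 G Z r (M := M) I) G (2 * (r + 1))) := by
  classical
  let B : {x // x ∈ I} ⊕ {z // z ∈ M} → Set V := fun a => match a with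
    | .inl v => {y | y = v.1.1 ∨ (y ∉ Z ∧ Out G Z r v.1.1 y)}
    | .inr x => {x.1}
  let c : {x // x ∈ I} ⊕ {z // z ∈ M} → V := fun a => match a with
    | .inl v => v.1.1
    | .inr x => x.1
  have hwalk : ∀ (v : {x // x ∈ I}) (x : {z // z ∈ M}), Seen G Z r v.1.1 x.1 →
      ∃ p : G.Walk v.1.1 x.1, p.length ≤ 2 * (r + 1) ∧ ∀ z ∈ p.support,
        z ∈ B (.inl v) ∨ z ∈ B (.inr x) := by
    rintro v x ⟨w, hw, q, hq, hz⟩
    refine ⟨q.concat hw, by simp; omega, ?_⟩
    intro z hz'
    rw [SimpleGraph.Walk.support_concat] at hz'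
    simp at hz'
    rcases hz' with h | h
    · left
      by_cases h1 : z = v.1.1
      · exact Or.inl h1
      · refine Or.inr ⟨(hz z h).resolve_left h1, q.takeUntil z h, ?_, ?_⟩
        · exact (q.length_takeUntil_le_length h).trans hq
        · intro y hy
          exact hz y (q.support_takeUntil_subset_support h hy)
    · exact Or.inr h
  refine ⟨⟨c, B, fun _ => ∅, ?_, ?_, ?_, ?_, ?_⟩⟩
  · rintro (a | a)
    · exact Or.inl rfl
    · exact rfl
  · rintro (a | a) (b | b) hab
    · rw [Set.disjoint_left]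
      have hne : a.1 ≠ b.1 := fun h => hab (congrArg _ (Subtype.ext h))
      rintro y (h1 | ⟨h1, h2⟩) (h3 | ⟨h3, h4⟩)
      · exact hne (Subtype.ext (h1.symm.trans h3))
      · exact h3 (h1 ▸ hSZ _ a.1.2)
      · exact h1 (h3 ▸ hSZ _ b.1.2)
      · obtain ⟨q, hq, hz⟩ := h2
        obtain ⟨q', hq', hz'⟩ := h4
        refine hind a.1 a.2 b.1 b.2 hne ⟨q.append q'.reverse, ?_, ?_⟩
        · simp; omega
        · intro z hz1
          rw [SimpleGraph.Walk.mem_support_append_iff] at hz1
          rcases hz1 with h | h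
          · rcases hz z h with h | h
            · exact Or.inl h
            · exact Or.inr (Or.inr h)
          · rw [SimpleGraph.Walk.support_reverse, List.mem_reverse] at h
            rcases hz' z h with h | h
            · exact Or.inr (Or.inl h)
            · exact Or.inr (Or.inr h)
    · rw [Set.disjoint_left]
      rintro y (h1 | ⟨h1, h2⟩) h3
      · rw [Set.mem_singleton_iff] at h3
        exact hMS _ b.2 (by rw [← h3, h1]; exact a.1.2)
      · rw [Set.mem_singleton_iff] at h3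
        exact h1 (h3 ▸ hMZ _ b.2)
    · rw [Set.disjoint_left]
      rintro y h3 (h1 | ⟨h1, h2⟩)
      · rw [Set.mem_singleton_iff] at h3
        exact hMS _ a.2 (by rw [← h3, h1]; exact b.1.2)
      · rw [Set.mem_singleton_iff] at h3
        exact h1 (h3 ▸ hMZ _ a.2)
    · rw [Set.disjoint_singleton]
      exact fun h => hab (congrArg _ (Subtype.ext h))
  · intro e f _
    exact Set.disjoint_empty _
  · intro x e
    exact Set.disjoint_empty _
  · rintro (a | a) (b | b) hab
    · exact absurd hab id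
    · obtain ⟨p, hp, hz⟩ := hwalk a b hab
      refine ⟨p, hp, fun z hz1 => ?_⟩
      rcases hz z hz1 with h | h
      · exact Or.inl (Or.inl h)
      · exact Or.inr h
    · obtain ⟨p, hp, hz⟩ := hwalk b a hab
      refine ⟨p.reverse, by simpa using hp, fun z hz1 => ?_⟩
      rw [SimpleGraph.Walk.support_reverse, List.mem_reverse] at hz1
      rcases hz z hz1 with h | h
      · exact Or.inr h
      · exact Or.inl (Or.inl h)
    · exact absurd hab id

open Classical in
theorem card_H2 (G : SimpleGraph V) (Z : Set V) (r : ℕ) {S M : Finset V}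
    (I : Finset {x // x ∈ S}) :
    ∑ v : {x // x ∈ I}, (Finset.univ.filter fun x : {z // z ∈ M} => Seen G Z r v.1.1 x.1).card ≤
      (H2 G Z r (M := M) I).edgeSet.ncard := by
  rw [← Finset.card_sigma]
  rw [← Set.ncard_coe_finset]
  refine Set.ncard_le_ncard_of_injOn (fun p => s(Sum.inl p.1, Sum.inr p.2)) ?_ ?_ (Set.toFinite _)
  · rintro ⟨v, x⟩ h
    simpa [H2] using h
  · rintro ⟨v, x⟩ - ⟨v', x'⟩ - h
    simp at h
    obtain ⟨rfl, rfl⟩ := h
    rfl


theorem real_step (N D y P C1 R1 i : ℝ) (hN : 1 ≤ N) (hC1 : 1 ≤ C1) (hR : 1 ≤ R1) (hy : 1 ≤ y)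
    (hD : D = C1 * y) (hi : N ≤ 10 * D * i) (a : ℝ) (ha : 0 < a) (ha1 : a ≤ 1)
    (hyN : y = N ^ a) (hX : i * (P - 4 * D) ≤ C1 * (3 * R1 * D * N) ^ (1 + a)) :
    P ≤ (4 * C1 + 90 * C1 ^ 4 * R1 ^ 2) * y ^ 4 := by
  have hD1 : 1 ≤ D := by rw [hD]; nlinarith
  have hRD : 1 ≤ 3 * R1 * D := by nlinarith
  have hi0 : 0 < i := by
    by_contra h
    push Not at h
    nlinarith
  have h1 : (3 * R1 * D * N) ^ (1 + a) ≤ 9 * R1 ^ 2 * D ^ 2 * N * y := by
    rw [Real.rpow_add (by positivity), Real.rpow_one, Real.mul_rpow (by positivity) (by positivity),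
      ← hyN]
    have h2 : (3 * R1 * D) ^ a ≤ 3 * R1 * D := by
      calc (3 * R1 * D) ^ a ≤ (3 * R1 * D) ^ (1 : ℝ) := Real.rpow_le_rpow_of_exponent_le hRD ha1
        _ = _ := Real.rpow_one _
    calc 3 * R1 * D * N * ((3 * R1 * D) ^ a * y) ≤ 3 * R1 * D * N * ((3 * R1 * D) * y) := by
          gcongr
      _ = _ := by ring
  have h3 : i * (P - 4 * D) ≤ i * (90 * C1 * R1 ^ 2 * D ^ 3 * y) := by
    calc i * (P - 4 * D) ≤ C1 * (3 * R1 * D * N) ^ (1 + a) := hX
      _ ≤ C1 * (9 * R1 ^ 2 * D ^ 2 * N * y) := by gcongr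
      _ ≤ C1 * (9 * R1 ^ 2 * D ^ 2 * (10 * D * i) * y) := by gcongr
      _ = _ := by ring
  have h4 : P - 4 * D ≤ 90 * C1 * R1 ^ 2 * D ^ 3 * y := le_of_mul_le_mul_left h3 hi0
  have h5 : 90 * C1 * R1 ^ 2 * D ^ 3 * y = 90 * C1 ^ 4 * R1 ^ 2 * y ^ 4 := by
    rw [hD]; ring
  have h6 : 4 * D ≤ 4 * C1 * y ^ 4 := by
    rw [hD]
    have : y ≤ y ^ 4 := by
      calc y = y ^ 1 := (pow_one y).symm
        _ ≤ y ^ 4 := pow_le_pow_right₀ hy (by norm_num)
    nlinarith
  linarith [add_mul (4 * C1) (90 * C1 ^ 4 * R1 ^ 2) (y ^ 4)]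

theorem e (hC : S_C) (hD : S_D) : S_E := by
  classical
  intro μ r ε hε
  set a : ℝ := min (ε / 4) 1 with ha
  have ha0 : 0 < a := lt_min (by linarith) one_pos
  have ha1 : a ≤ 1 := min_le_right _ _
  have ha4 : 4 * a ≤ ε := by
    have := min_le_left (ε / 4) 1
    linarith
  obtain ⟨C0, hC0⟩ := hC a ha0 (fun R => μ (2 * (r + 1) * R))
  set C1 : ℝ := max C0 1 with hC1
  have hC11 : 1 ≤ C1 := le_max_right _ _
  set R1 : ℝ := (r : ℝ) + 1 with hR1
  have hR11 : 1 ≤ R1 := by
    have : (0 : ℝ) ≤ r := Nat.cast_nonneg r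
    linarith
  refine ⟨4 * C1 + 90 * C1 ^ 4 * R1 ^ 2 + 1, ?_⟩
  intro V _ G hG S hS
  -- the bound for the number of edges of models
  have hedge : ∀ (X : Type) [Fintype X] (H : SimpleGraph X), Nonempty (Model H G (2 * (r + 1))) →
      (H.edgeSet.ncard : ℝ) ≤ C1 * (Fintype.card X : ℝ) ^ (1 + a) := by
    intro X _ H hM
    have hEx : Ex (fun R => μ (2 * (r + 1) * R)) H := fun R hL =>
      hG _ (hD X V H G (2 * (r + 1)) (by omega) hM R _ hL)
    refine (hC0 X H hEx).trans ?_
    gcongr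
    exact le_max_left _ _
  obtain ⟨F, Q, hF, hmax⟩ := exists_fam G S (2 * (r + 1))
  set N : ℝ := (S.card : ℝ) with hN
  have hN1 : 1 ≤ N := by
    rw [hN]
    exact_mod_cast Finset.card_pos.2 hS
  set y : ℝ := N ^ a with hy
  have hy1 : 1 ≤ y := Real.one_le_rpow hN1 ha0.le
  set D : ℝ := C1 * y with hDd
  have hD1 : 1 ≤ D := by rw [hDd]; nlinarith
  have hcX : (Fintype.card {x // x ∈ S} : ℝ) = N := by simp [hN]
  have hE1 : ((H1 hF).edgeSet.ncard : ℝ) ≤ D * N := by
    refine (hedge _ _ (model1 hF)).trans ?_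
    rw [hcX, Real.rpow_add (by linarith), Real.rpow_one]
    rw [hDd]
    nlinarith
  obtain ⟨I, hI1, hI2, hI3⟩ := exists_indep (H1 hF) D hD1 (by rw [hcX]; exact hE1)
  rw [hcX] at hI3
  set Z : Set V := ZZ S F Q with hZ
  set M : Finset V := F.biUnion Q with hM
  have hMmem : ∀ z, z ∈ M ↔ ∃ e ∈ F, z ∈ Q e := by
    intro z
    simp [hM]
  have hSZ : ∀ z ∈ S, z ∈ Z := fun z hz => Or.inl hz
  have hMZ : ∀ z ∈ M, z ∈ Z := fun z hz => Or.inr ((hMmem z).1 hz)
  have hMS : ∀ z ∈ M, z ∉ S := by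
    intro z hz hzS
    obtain ⟨e, he, hze⟩ := (hMmem z).1 hz
    exact Finset.disjoint_left.1 (hF.1 e he).1 hze hzS
  have hclose : ∀ u v, u ∈ S → v ∈ S → u ≠ v → (∃ p : G.Walk u v, p.length ≤ 2 * (r + 1) ∧
      ∀ z ∈ p.support, z = u ∨ z = v ∨ z ∉ Z) → s(u, v) ∈ F := by
    rintro u v hu hv huv ⟨p, hp, hz⟩
    refine hmax u v hu hv huv ⟨p, hp, ?_⟩
    intro z hz1
    rcases hz z hz1 with h | h | h
    · exact Or.inl h
    · exact Or.inr (Or.inl h)
    · refine Or.inr (Or.inr ⟨fun h1 => h (Or.inl h1), fun e he h1 => h (Or.inr ⟨e, he, h1⟩)⟩)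
  have hI0 : 0 < I.card := by
    by_contra h
    have h0 : I.card = 0 := by omega
    rw [h0] at hI3
    simp at hI3
    linarith
  -- the sets
  let Se : {x // x ∈ S} → Finset {z // z ∈ M} := fun v =>
    Finset.univ.filter fun x : {z // z ∈ M} => Seen G Z r v.1 x.1
  let Nb : {x // x ∈ S} → Finset {x // x ∈ S} := fun v =>
    Finset.univ.filter fun x => (H1 hF).Adj v x
  let U : {x // x ∈ S} → Finset V := fun v =>
    (Nb v).image Subtype.val ∪ (Se v).image Subtype.val
  have hNb : ∀ v ∈ I, ((Nb v).card : ℝ) ≤ 4 * D := by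
    intro v hv
    refine le_trans (le_of_eq ?_) (hI2 v hv)
    rw [← Set.ncard_coe_finset]
    congr 2
    ext x
    simp [Nb]
  by_contra hcon
  push Not at hcon
  -- all sets are large
  have hbig : ∀ v ∈ I, (4 * C1 + 90 * C1 ^ 4 * R1 ^ 2 + 1) * N ^ ε < ((U v).card : ℝ) := by
    intro v hv
    by_contra hle
    push Not at hle
    obtain ⟨s, hs, hsv, p, hp, hpx⟩ := hcon v.1 v.2 (U v) (by
      intro hvU
      rcases Finset.mem_union.1 hvU with h | h
      · obtain ⟨x, hx, hxv⟩ := Finset.mem_image.1 h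
        have hx2 := (Finset.mem_filter.1 hx).2
        have : x = v := Subtype.ext hxv
        subst this
        exact (H1 hF).loopless.irrefl _ hx2
      · obtain ⟨x, hx, hxv⟩ := Finset.mem_image.1 h
        exact hMS _ x.2 (hxv ▸ v.2)) hle
    obtain ⟨x, hx, hxZ, hxv, w, hw, k', hk', hout⟩ := exists_first G Z v.1 v.1 s p 0 (hSZ s hs) hsv
      ⟨SimpleGraph.Walk.nil, by simp, by simp⟩
    apply hpx x hx
    have hout' : Out G Z r v.1 w := hout.mono (by omega)
    rcases hxZ with hxS | hxM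
    · have hF' : s(v.1, x) ∈ F := by
        refine hclose v.1 x v.2 hxS (Ne.symm hxv) ?_
        obtain ⟨q, hq, hz⟩ := hout'
        refine ⟨q.concat hw, by simp; omega, ?_⟩
        intro z hz1
        rw [SimpleGraph.Walk.support_concat] at hz1
        simp at hz1
        rcases hz1 with h | h
        · rcases hz z h with h | h
          · exact Or.inl h
          · exact Or.inr (Or.inr h)
        · exact Or.inr (Or.inl h)
      refine Finset.mem_union_left _ (Finset.mem_image.2 ⟨⟨x, hxS⟩, ?_, rfl⟩)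
      exact Finset.mem_filter.2 ⟨Finset.mem_univ _, hF'⟩
    · refine Finset.mem_union_right _ (Finset.mem_image.2 ⟨⟨x, (hMmem x).2 hxM⟩, ?_, rfl⟩)
      exact Finset.mem_filter.2 ⟨Finset.mem_univ _, w, hw, hout'⟩
  set P : ℝ := (4 * C1 + 90 * C1 ^ 4 * R1 ^ 2 + 1) * N ^ ε with hP
  have hSe : ∀ v ∈ I, P - 4 * D ≤ ((Se v).card : ℝ) := by
    intro v hv
    have h1 := hbig v hv
    have h2 := hNb v hv
    have h3 : ((U v).card : ℝ) ≤ ((Nb v).card : ℝ) + ((Se v).card : ℝ) := by
      have h4 : (U v).card ≤ (Nb v).card + (Se v).card :=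
        (Finset.card_union_le _ _).trans (Nat.add_le_add Finset.card_image_le Finset.card_image_le)
      exact_mod_cast h4
    linarith
  -- the second graph
  have hmod : Nonempty (Model (H2 G Z r (M := M) I) G (2 * (r + 1))) := by
    refine model2 I hSZ hMZ hMS ?_
    intro x hx y hy hxy hp
    exact hI1 x hx y hy (hclose x.1 y.1 x.2 y.2 (fun h => hxy (Subtype.ext h)) hp)
  have hE2 := hedge _ _ hmod
  have hcnt := card_H2 G Z r (M := M) I
  have hsum : (I.card : ℝ) * (P - 4 * D) ≤ ((H2 G Z r (M := M) I).edgeSet.ncard : ℝ) := by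
    have h1 : ∑ v : {x // x ∈ I}, (P - 4 * D) ≤ ∑ v : {x // x ∈ I}, ((Se v.1).card : ℝ) :=
      Finset.sum_le_sum fun v _ => hSe v.1 v.2
    rw [Finset.sum_const, nsmul_eq_mul, Finset.card_univ, Fintype.card_coe] at h1
    refine h1.trans ?_
    exact_mod_cast hcnt
  have hMc : (M.card : ℝ) ≤ 2 * R1 * (D * N) := by
    have h1 : M.card ≤ ∑ e ∈ F, (Q e).card := Finset.card_biUnion_le
    have h2 : ∑ e ∈ F, (Q e).card ≤ F.card * (2 * (r + 1)) := by
      have := Finset.sum_le_card_nsmul F (fun e => (Q e).card) (2 * (r + 1))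
        fun e he => (hF.1 e he).2.1
      simpa using this
    have h3 : (M.card : ℝ) ≤ (F.card : ℝ) * (2 * R1) := by
      have : M.card ≤ F.card * (2 * (r + 1)) := h1.trans h2
      rw [hR1]
      exact_mod_cast this
    have h4 : (F.card : ℝ) ≤ D * N := by
      refine le_trans ?_ hE1
      exact_mod_cast card_F hF
    nlinarith
  have hX2 : (Fintype.card ({x // x ∈ I} ⊕ {z // z ∈ M}) : ℝ) ≤ 3 * R1 * D * N := by
    rw [Fintype.card_sum, Fintype.card_coe, Fintype.card_coe]
    push_cast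
    have h1 : (I.card : ℝ) ≤ N := by
      have : I.card ≤ Fintype.card {x // x ∈ S} := Finset.card_le_univ I
      rw [← hcX]
      exact_mod_cast this
    have h2 : N ≤ R1 * D * N := by
      have : 1 ≤ R1 * D := by nlinarith
      nlinarith
    nlinarith
  have hfin : (I.card : ℝ) * (P - 4 * D) ≤ C1 * (3 * R1 * D * N) ^ (1 + a) := by
    refine hsum.trans (hE2.trans ?_)
    gcongr
  have hPle := real_step N D y P C1 R1 I.card hN1 hC11 hR11 hy1 hDd hI3 a ha0 ha1 hy hfin
  have hy4 : y ^ 4 ≤ N ^ ε := by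
    rw [hy, ← Real.rpow_natCast, ← Real.rpow_mul (by linarith)]
    apply Real.rpow_le_rpow_of_exponent_le hN1
    push_cast
    linarith
  have hy40 : 0 < N ^ ε := Real.rpow_pos_of_pos (by linarith) _
  have hK : 0 ≤ 4 * C1 + 90 * C1 ^ 4 * R1 ^ 2 := by positivity
  have := mul_le_mul_of_nonneg_left hy4 hK
  rw [hP] at hPle
  nlinarith

end Pool.Agent.N11.ND
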